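import Pool.Agent.Y481.DR.Defs
import Pool.Agent.Y448.CB.Trg
import Pool.Agent.Y833.CB.Dec
import Pool.Agent.Y833.CB.Dds
import Pool.Agent.Y833.CB.Spl
import Pool.Agent.Y516.CB.Act
import Pool.Agent.Y516.CB.FT
import Pool.Agent.Y678.CB.Qv
import Pool.Agent.Y678.CB.Vwp
import Pool.Agent.Y678.CB.Bid
import Pool.Agent.Y494.CB.Bas
import Pool.Agent.Y494.CB.PT
import Pool.Agent.Y317.CB.TH
import Pool.Agent.Y228.CB.HV
import Pool.Agent.Y574.CB.NIL
import Pool.Agent.Y807.CB.Sig1F
import Pool.Agent.Y807.CB.Sig2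
import Pool.Agent.Y807.CB.Sigt

/-!
# TRP: the generic trace formula for polynomials of the Casimir operator
-/

set_option autoImplicit false

namespace Pool.Agent.Y484.DR

open Finset Pool.Agent.Y472 Pool.Agent.Y481.DR Matrix
open Pool.Agent.Y448.CB (FF FF_apply pI_mulVec act_matrix sum_Ico_fin sum_range_fin trace_split
  Hm2 Hm3 H2 H3 hm2_one hm2_mul hm2_pow hm3_one hm3_mul hm3_L12 hm3_L23 hm3_fullt hat_hom
  gd3_fullt fb_H2)

/-! ### Good operators -/

section good

variable {N : ℕ} {w l : ℂ}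

theorem gd_add {A B : V2 →ₗ[ℂ] V2} (hA : Gd N w l A) (hB : Gd N w l B) : Gd N w l (A + B) where
  e x := by rw [LinearMap.add_apply, LinearMap.add_apply, hA.e, hB.e, map_add]
  f x := by rw [LinearMap.add_apply, LinearMap.add_apply, hA.f, hB.f, map_add]
  k x := by rw [LinearMap.add_apply, LinearMap.add_apply, hA.k, hB.k, map_add]
  t x hx := by
    rw [LinearMap.add_apply]
    exact Submodule.add_mem _ (hA.t x hx) (hB.t x hx)

theorem gd_smul {A : V2 →ₗ[ℂ] V2} (hA : Gd N w l A) (c : ℂ) : Gd N w l (c • A) where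
  e x := by rw [LinearMap.smul_apply, LinearMap.smul_apply, hA.e, map_smul]
  f x := by rw [LinearMap.smul_apply, LinearMap.smul_apply, hA.f, map_smul]
  k x := by rw [LinearMap.smul_apply, LinearMap.smul_apply, hA.k, map_smul]
  t x hx := by
    rw [LinearMap.smul_apply]
    exact Submodule.smul_mem _ c (hA.t x hx)

theorem aeval_mono (A : V2 →ₗ[ℂ] V2) (n : ℕ) (c : ℂ) :
    Polynomial.aeval A (Polynomial.monomial n c) = c • A ^ n := by
  rw [Polynomial.aeval_monomial, Algebra.smul_def]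

theorem gd_aeval {A : V2 →ₗ[ℂ] V2} (hA : Gd N w l A) (P : Polynomial ℂ) :
    Gd N w l (Polynomial.aeval A P) := by
  induction P using Polynomial.induction_on' with
  | add p q hp hq =>
    rw [map_add]
    exact gd_add hp hq
  | monomial n c =>
    rw [aeval_mono]
    exact gd_smul (Pool.Agent.Y448.CB.gd_pow hA n) c

theorem gd_casP (hw : Rt N w) (hl : l ≠ 0) (P : Polynomial ℂ) :
    Gd N w l (Polynomial.aeval (cas w l) P) :=
  gd_aeval (Pool.Agent.Y516.CB.gd_cas Pool.Agent.Y807.CB.sigt hw hl) P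

theorem gd3_12 (hw : Rt N w) (hl : l ≠ 0) (P : Polynomial ℂ) :
    Gd3 N w l (L12 (Polynomial.aeval (cas w l) P)) :=
  (Pool.Agent.Y317.CB.gd3 N w l hw hl _ (gd_casP hw hl P)).1

theorem gd3_23 (hw : Rt N w) (hl : l ≠ 0) (P : Polynomial ℂ) :
    Gd3 N w l (L23 (Polynomial.aeval (cas w l) P)) :=
  (Pool.Agent.Y317.CB.gd3 N w l hw hl _ (gd_casP hw hl P)).2

theorem gd3_opP (hw : Rt N w) (hl : l ≠ 0) (ps : List (Polynomial ℂ × Polynomial ℂ)) :
    Gd3 N w l (opP w l ps) := by
  unfold opP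
  induction ps with
  | nil => exact Pool.Agent.Y448.CB.gd3_one
  | cons p ps ih =>
    rw [List.map_cons, List.prod_cons]
    exact Pool.Agent.Y448.CB.gd3_mul
      (Pool.Agent.Y448.CB.gd3_mul (gd3_12 hw hl p.1) (gd3_23 hw hl p.2)) ih

end good

/-! ### Homogeneity -/

theorem hm2_add {A B : V2 →ₗ[ℂ] V2} (hA : Hm2 A) (hB : Hm2 B) : Hm2 (A + B) := by
  intro D x hx a b hab
  rw [LinearMap.add_apply]
  change A x a b + B x a b = 0
  rw [hA D x hx a b hab, hB D x hx a b hab, add_zero]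

theorem hm2_smul {A : V2 →ₗ[ℂ] V2} (hA : Hm2 A) (c : ℂ) : Hm2 (c • A) := by
  intro D x hx a b hab
  rw [LinearMap.smul_apply]
  change c * A x a b = 0
  rw [hA D x hx a b hab, mul_zero]

theorem hm2_cas (w l : ℂ) : Hm2 (cas w l) := by
  intro D x hx a b hab
  have q0 : qi w ((0 : ℕ) : ℤ) = 0 := by simp [qi, cb]
  change (qi w a * (lb w l (-1 - ((a - 1 : ℕ) : ℤ)) * KK w l b * x (a - 1 + 1) b +
      lb w l (-1 - b) * x (a - 1) (b + 1)) +
    (KK w l a)⁻¹ * qi w b * (lb w l (-1 - a) * KK w l ((b - 1 : ℕ)) * x (a + 1) (b - 1) +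
      lb w l (-1 - ((b - 1 : ℕ) : ℤ)) * x a (b - 1 + 1))) +
    (w * KK w l a * KK w l b + (w * KK w l a * KK w l b)⁻¹) * x a b = 0
  have h1 : qi w a * (lb w l (-1 - ((a - 1 : ℕ) : ℤ)) * KK w l b * x (a - 1 + 1) b +
      lb w l (-1 - b) * x (a - 1) (b + 1)) = 0 := by
    rcases Nat.eq_zero_or_pos a with ha | ha
    · subst ha
      rw [q0, zero_mul]
    · rw [hx (a - 1 + 1) b (by omega), hx (a - 1) (b + 1) (by omega)]
      ring
  have h2 : (KK w l a)⁻¹ * qi w b * (lb w l (-1 - a) * KK w l ((b - 1 : ℕ)) * x (a + 1) (b - 1) +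
      lb w l (-1 - ((b - 1 : ℕ) : ℤ)) * x a (b - 1 + 1)) = 0 := by
    rcases Nat.eq_zero_or_pos b with hb | hb
    · subst hb
      rw [q0, mul_zero, zero_mul]
    · rw [hx (a + 1) (b - 1) (by omega), hx a (b - 1 + 1) (by omega)]
      ring
  rw [h1, h2, hx a b hab]
  ring

theorem hm2_casP (w l : ℂ) (P : Polynomial ℂ) : Hm2 (Polynomial.aeval (cas w l) P) := by
  induction P using Polynomial.induction_on' with
  | add p q hp hq =>
    rw [map_add]
    exact hm2_add hp hq
  | monomial n c =>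
    rw [aeval_mono]
    exact hm2_smul (hm2_pow (hm2_cas w l) n) c

theorem hm3_opP (w l : ℂ) (ps : List (Polynomial ℂ × Polynomial ℂ)) : Hm3 (opP w l ps) := by
  unfold opP
  induction ps with
  | nil => exact hm3_one
  | cons p ps ih =>
    rw [List.map_cons, List.prod_cons]
    exact hm3_mul (hm3_mul (hm3_L12 (hm2_casP w l p.1)) (hm3_L23 (hm2_casP w l p.2))) ih

/-! ### The action on the split basis -/

section act

variable {N : ℕ} {w l : ℂ}

theorem hat12P (hw : Rt N w) (hl : Gl l) (P : Polynomial ℂ) :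
    hat w l (L12 (Polynomial.aeval (cas w l) P)) = Polynomial.aeval (X12 w l) P := by
  have g := (Pool.Agent.Y317.CB.gd3 N w l hw hl.ne _
    (Pool.Agent.Y516.CB.gd_cas Pool.Agent.Y807.CB.sigt hw hl.ne)).1
  rw [← (Pool.Agent.Y317.CB.x12 Pool.Agent.Y317.CB.th Pool.Agent.Y574.CB.nil
    Pool.Agent.Y807.CB.sigt N w l hw hl).1,
    ← Pool.Agent.Y516.CB.hat_aeval Pool.Agent.Y317.CB.hatm Pool.Agent.Y317.CB.th
      Pool.Agent.Y574.CB.nil hw hl g, ← Pool.Agent.Y516.CB.L12_aeval]

theorem hat23P (hw : Rt N w) (hl : Gl l) (P : Polynomial ℂ) :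
    hat w l (L23 (Polynomial.aeval (cas w l) P)) = Polynomial.aeval (cas w l) P :=
  (Pool.Agent.Y317.CB.x12 Pool.Agent.Y317.CB.th Pool.Agent.Y574.CB.nil
    Pool.Agent.Y807.CB.sigt N w l hw hl).2 _

/-- the action of the vertices on the split basis -/
theorem actP (hw : Rt N w) (hl : Gl l) (P : Polynomial ℂ) (D i : ℕ) (hD : D < i + N)
    (hi : i < N) :
    hat w l (L12 (Polynomial.aeval (cas w l) P)) (fb N w l D i) =
      ∑ j ∈ Ico i N, gdP w l P i j • fb N w l D j ∧
    hat w l (L23 (Polynomial.aeval (cas w l) P)) (fb N w l D i) =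
      ∑ j ∈ range (i + 1), ((∏ t ∈ Ioc j i, ph w l D t) * gdP w l P j i) • fb N w l D j := by
  constructor
  · rw [hat12P hw hl]
    have hb := (Pool.Agent.Y678.CB.bid V2 (X12 w l) (fun t => uu w l (i + t))
      (fun t => fb N w l D (i + t)) (fun _ => 0) (N - i) P ?_).1 ?_ ?_ 0 (by omega)
    · rw [Nat.add_zero] at hb
      rw [hb, Finset.sum_Ico_eq_sum_range, Finset.sum_Ico_eq_sum_range, Nat.sub_zero]
      refine Finset.sum_congr rfl fun j hj => ?_
      have hj' : j < N - i := Finset.mem_range.mp hj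
      rw [Nat.zero_add]
      congr 1
      unfold gdP
      have e : Icc i (i + j) = (Icc 0 j).map (addLeftEmbedding i) := by
        rw [Finset.map_add_left_Icc, Nat.add_zero]
      conv_rhs => arg 1; rw [e]
      rw [Finset.sum_map]
      refine Finset.sum_congr rfl fun k hk => ?_
      change _ = Lagrange.nodalWeight (Icc i (i + j)) (uu w l) (i + k) * P.eval (uu w l (i + k))
      rw [Pool.Agent.Y516.CB.nodal_shift]
    · intro s hs t ht hst
      have hs' : s < N - i := hs
      have ht' : t < N - i := ht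
      have := Pool.Agent.Y516.CB.uu_inj hw hl
        (show i + s ∈ Set.Iio N from by change i + s < N; omega)
        (show i + t ∈ Set.Iio N from by change i + t < N; omega) hst
      omega
    · intro t ht
      exact (Pool.Agent.Y833.CB.spl N w l hw hl D (i + t) (by omega) (by omega)).1
    · change fb N w l D (i + (N - i)) = 0
      rw [Nat.add_sub_cancel' hi.le, Pool.Agent.Y516.CB.fb_N]
  · rw [hat23P hw hl]
    have ph0 : ph w l D (D + 1 - N) = 0 := by
      unfold ph
      rcases Nat.lt_or_ge (D + 1) N with h | h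
      · have : D + 1 - N = 0 := by omega
        rw [this]
        have e : qi w ((0 : ℕ) : ℤ) = 0 := Pool.Agent.Y516.CB.qi_zero w
        rw [e]
        ring
      · have e : qi w ((D : ℤ) + 1 - ((D + 1 - N : ℕ) : ℤ)) = 0 := by
          have e1 : (D : ℤ) + 1 - ((D + 1 - N : ℕ) : ℤ) = N := by
            push_cast [Nat.cast_sub h]; ring
          rw [e1]
          unfold qi cb
          rw [zpow_natCast, hw.neg]
          norm_num
        rw [e]
        ring
    have hb := (Pool.Agent.Y678.CB.bid V2 (cas w l) (uu w l) (fun t => fb N w l D t)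
      (fun t => ph w l D t) N P (Pool.Agent.Y516.CB.uu_inj hw hl)).2 (D + 1 - N) ?_ ph0 i hi
      (by omega)
    · rw [hb]
      have hsub : Icc (D + 1 - N) i ⊆ range (i + 1) := by
        intro t ht
        have := Finset.mem_Icc.mp ht
        exact Finset.mem_range.mpr (by omega)
      rw [← Finset.sum_subset hsub]
      · rfl
      · intro j hj hj2
        have hj' := Finset.mem_range.mp hj
        have hj3 : j < D + 1 - N := by
          by_contra hcon
          exact hj2 (Finset.mem_Icc.mpr ⟨by omega, by omega⟩)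
        have : ∏ t ∈ Ioc j i, ph w l D t = 0 :=
          Finset.prod_eq_zero (Finset.mem_Ioc.mpr ⟨hj3, by omega⟩) ph0
        rw [this, zero_mul, zero_smul]
    · intro t ht ht2
      exact (Pool.Agent.Y833.CB.spl N w l hw hl D t (by omega) ht).2

theorem act_AP (hw : Rt N w) (hl : Gl l) (P : Polynomial ℂ) (D : ℕ) (c : Fin N → ℂ) :
    hat w l (L12 (Polynomial.aeval (cas w l) P)) (FF N w l D (pI N D *ᵥ c)) =
      FF N w l D (pI N D *ᵥ (MAP N w l P *ᵥ (pI N D *ᵥ c))) := by
  apply act_matrix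
  · intro i hi
    rw [(actP hw hl P D i hi i.2).1, sum_Ico_fin]
    refine sum_congr rfl fun j _ => ?_
    simp only [MAP, Fin.le_def]
    split_ifs
    · rfl
    · rw [zero_smul]
  · intro i j hi hj
    simp only [MAP, Fin.le_def]
    rw [if_neg]
    omega

theorem act_BP (hw : Rt N w) (hl : Gl l) (P : Polynomial ℂ) (D : ℕ) (c : Fin N → ℂ) :
    hat w l (L23 (Polynomial.aeval (cas w l) P)) (FF N w l D (pI N D *ᵥ c)) =
      FF N w l D (pI N D *ᵥ (MBP N w l D P *ᵥ (pI N D *ᵥ c))) := by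
  apply act_matrix
  · intro i hi
    rw [(actP hw hl P D i hi i.2).2, sum_range_fin i i.2]
    refine sum_congr rfl fun j _ => ?_
    simp only [MBP, Fin.le_def]
    split_ifs
    · rfl
    · rw [zero_smul]
  · intro i j hi hj
    simp only [MBP, Fin.le_def]
    split_ifs with hji
    · rw [prod_eq_zero (i := D + 1 - N), zero_mul]
      · rw [mem_Ioc]
        omega
      · unfold ph
        have h1 : ((D : ℤ) + 1 - ((D + 1 - N : ℕ) : ℤ)) = N := by omega
        rw [h1, Pool.Agent.Y448.CB.qi_N hw]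
        ring
    · rfl

/-- the matrix of the product of the vertices -/
noncomputable def PMP (N : ℕ) (w l : ℂ) (D : ℕ) (ps : List (Polynomial ℂ × Polynomial ℂ)) :
    Matrix (Fin N) (Fin N) ℂ :=
  (ps.map fun p => MAP N w l p.1 * pI N D * MBP N w l D p.2 * pI N D).prod

/-- the action of the vertices -/
theorem act_opP (hw : Rt N w) (hl : Gl l) (D : ℕ) (ps : List (Polynomial ℂ × Polynomial ℂ))
    (c : Fin N → ℂ) :
    hat w l (opP w l ps) (FF N w l D (pI N D *ᵥ c)) =
      FF N w l D (pI N D *ᵥ (PMP N w l D ps *ᵥ c)) := by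
  induction ps generalizing c with
  | nil =>
    change Th w l (FF N w l D (pI N D *ᵥ c)) 0 = _
    rw [(Pool.Agent.Y317.CB.th Pool.Agent.Y574.CB.nil N w l hw hl).2.1]
    unfold PMP
    rw [List.map_nil, List.prod_nil, one_mulVec]
  | cons p ps ih =>
    have g1 := gd3_12 (N := N) hw hl.ne p.1
    have g2 := gd3_23 (N := N) hw hl.ne p.2
    have g3 := gd3_opP hw hl.ne ps
    have e1 : opP w l (p :: ps) = L12 (Polynomial.aeval (cas w l) p.1) *
        (L23 (Polynomial.aeval (cas w l) p.2) * opP w l ps) := by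
      unfold opP
      rw [List.map_cons, List.prod_cons, mul_assoc]
    have e2 : PMP N w l D (p :: ps) =
        MAP N w l p.1 * pI N D * MBP N w l D p.2 * pI N D * PMP N w l D ps := by
      unfold PMP
      rw [List.map_cons, List.prod_cons]
    rw [e1, e2, (Pool.Agent.Y317.CB.hatm Pool.Agent.Y317.CB.th Pool.Agent.Y574.CB.nil N w l hw hl
        _ _ g1 (Pool.Agent.Y448.CB.gd3_mul g2 g3)).1,
      (Pool.Agent.Y317.CB.hatm Pool.Agent.Y317.CB.th Pool.Agent.Y574.CB.nil N w l hw hl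
        _ _ g2 g3).1]
    rw [Module.End.mul_apply, Module.End.mul_apply, ih, act_BP hw hl, act_AP hw hl]
    simp only [mulVec_mulVec, ← mul_assoc]

/-- the action of the whole operator on the split basis -/
theorem act_allP (hw : Rt N w) (hl : Gl l) (D : ℕ) (ps : List (Polynomial ℂ × Polynomial ℂ))
    (m : ℤ) (i : Fin N) (hi : (i : ℕ) ≤ D ∧ D < i + N) :
    hat w l (fullt w l m * opP w l ps) (fb N w l D i) =
      ta w l D ^ m • ∑ j : Fin N, (pI N D * PMP N w l D ps) j i • fb N w l D j := by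
  have g3 := gd3_opP hw hl.ne ps
  have g4 := gd3_fullt Pool.Agent.Y807.CB.sig1 Pool.Agent.Y807.CB.sig2 Pool.Agent.Y807.CB.sigt
    Pool.Agent.Y317.CB.gd3 hw (Pool.Agent.Y448.CB.rt_ne hw) hl.ne m
  have e0 : fb N w l D i = FF N w l D (pI N D *ᵥ Pi.single i 1) := by
    rw [FF_apply, sum_eq_single i]
    · rw [pI_mulVec, if_pos hi, Pi.single_eq_same, one_smul]
    · intro j _ hj
      rw [pI_mulVec, Pi.single_eq_of_ne hj]
      simp
    · simp
  rw [(Pool.Agent.Y317.CB.hatm Pool.Agent.Y317.CB.th Pool.Agent.Y574.CB.nil N w l hw hl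
      _ _ g4 g3).1, Module.End.mul_apply, e0, act_opP hw hl,
    Pool.Agent.Y516.CB.ft Pool.Agent.Y833.CB.tas Pool.Agent.Y833.CB.dec Pool.Agent.Y494.CB.bas
      Pool.Agent.Y317.CB.hatm Pool.Agent.Y317.CB.gd3 Pool.Agent.Y228.CB.hvt
      Pool.Agent.Y807.CB.sig1 Pool.Agent.Y807.CB.sig2 Pool.Agent.Y807.CB.sigt
      Pool.Agent.Y317.CB.th Pool.Agent.Y574.CB.nil Pool.Agent.Y678.CB.vwp N w l hw hl m _ D]
  · congr 1
    rw [FF_apply, mulVec_mulVec]
    refine sum_congr rfl fun j _ => ?_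
    rw [mulVec_single_one]
    rfl
  · rw [FF_apply]
    exact Submodule.sum_mem _ fun j _ => Submodule.smul_mem _ _ (Pool.Agent.Y448.CB.fb_T2 D j)
  · intro a b hab
    rw [FF_apply]
    have : (∑ j : Fin N, (pI N D *ᵥ PMP N w l D ps *ᵥ Pi.single i 1) j • fb N w l D j) a b =
        ∑ j : Fin N, ((pI N D *ᵥ PMP N w l D ps *ᵥ Pi.single i 1) j • fb N w l D j) a b := by
      rw [Finset.sum_apply, Finset.sum_apply]
    rw [this]
    refine sum_eq_zero fun j _ => ?_
    change _ * fb N w l D j a b = 0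
    rw [fb_H2 D j a b hab, mul_zero]

end act

/-- **TRP** -/
theorem trp : S_TRP := by
  intro N w l hw hl ps m
  have hw0 := Pool.Agent.Y448.CB.rt_ne hw
  have gX : Gd3 N w l (fullt w l m * opP w l ps) :=
    Pool.Agent.Y448.CB.gd3_mul (gd3_fullt Pool.Agent.Y807.CB.sig1 Pool.Agent.Y807.CB.sig2
      Pool.Agent.Y807.CB.sigt Pool.Agent.Y317.CB.gd3 hw hw0 hl.ne m) (gd3_opP hw hl.ne ps)
  unfold JP
  rw [Pool.Agent.Y494.CB.pt Pool.Agent.Y833.CB.dec Pool.Agent.Y833.CB.dds Pool.Agent.Y494.CB.bas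
      Pool.Agent.Y317.CB.th Pool.Agent.Y574.CB.nil Pool.Agent.Y317.CB.hatm
      Pool.Agent.Y807.CB.sigt Pool.Agent.Y678.CB.qv Pool.Agent.Y678.CB.vwp
      Pool.Agent.Y228.CB.hvt Pool.Agent.Y807.CB.sig1 Pool.Agent.Y807.CB.sig2 N w l hw hl _ gX
      (fun m' D => hat_hom w l (hm3_mul (hm3_fullt w l m) (hm3_opP w l ps)) m' D),
    trace_split (hat w l (fullt w l m * opP w l ps)) (dd N w l) (fun D => ta w l D ^ m)
      (fun D => PMP N w l D ps) (Pool.Agent.Y833.CB.basf N w l hw hl)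
      (fun D i hi => act_allP hw hl D ps m i hi), mul_sum]
  refine sum_congr rfl fun D _ => ?_
  unfold dd trP PMP
  ring

end Pool.Agent.Y484.DR
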